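import Pool.Agent.Y600.Circ.Defs

/-!
# Circuits for 3-SAT that are symmetric under a product of copies of `A₅`

Definitions of the statement.
-/

set_option autoImplicit false

namespace Pool.Agent.J6H49.SY

open Pool.Agent.Y600.Circ (Circuit view)

/-- The alternating group of degree five. -/
abbrev A5 : Type := alternatingGroup (Fin 5)

/-- The variables: a block of five variables for each element of `ι`, and `m` further variables. -/
abbrev Vr (ι : Type) (m : ℕ) : Type := (ι × Fin 5) ⊕ Fin m

/-- A clause consists of three literals; `(w, s)` is the literal that is true if the variable `w`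
has the value `s`. -/
abbrev Clause (ι : Type) (m : ℕ) : Type := Fin 3 → Vr ι m × Bool

variable {ι : Type} {m : ℕ}

/-- The formula with the clauses `c` for which `x c = true` is satisfiable. -/
def Sat (x : Clause ι m → Bool) : Prop :=
  ∃ a : Vr ι m → Bool, ∀ c, x c = true → ∃ k, a (c k).1 = (c k).2

/-- The action of the group `A₅ ^ ι` on the variables: `γ i` permutes the variables of the block
`i`; the further variables are fixed. -/
def mv (γ : ι → A5) : Vr ι m → Vr ι m :=
  Sum.map (fun p => (p.1, (γ p.1 : Equiv.Perm (Fin 5)) p.2)) id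

/-- The action of the group `A₅ ^ ι` on the clauses. -/
def mc (γ : ι → A5) (c : Clause ι m) : Clause ι m := fun k => (mv γ (c k).1, (c k).2)

/-- The permutation `π` of the gates is an automorphism of the circuit that extends the permutation
`γ` of the clauses (i.e. of the input bits). -/
structure IsAut {D L : Type} (C : Circuit (Clause ι m) D L) (γ : ι → A5)
    (π : Equiv.Perm C.Gate) : Prop where
  read : ∀ g, C.read (π g) = (C.read g).map (mc γ)
  wires : ∀ g, C.wires (π g) = (C.wires g).map fun e => (e.1, π e.2)
  fn : ∀ g, C.fn (π g) = C.fn g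
  out : π C.out = C.out

/-- A circuit is symmetric if every element of the group `A₅ ^ ι` extends to an automorphism of the
circuit. -/
def Symmetric {D L : Type} (C : Circuit (Clause ι m) D L) : Prop :=
  ∀ γ : ι → A5, ∃ π : Equiv.Perm C.Gate, IsAut C γ π

/-- The circuit decides whether formulas are satisfiable. -/
def Decides {D L : Type} (C : Circuit (Clause ι m) D L) (acc : Set D) : Prop :=
  ∀ x : Clause ι m → Bool, C.output x ∈ acc ↔ Sat x

/-! ### Notions for the proof -/

/-- The action on the formulas. -/
def act (γ : ι → A5) (x : Clause ι m → Bool) : Clause ι m → Bool := fun c => x (mc γ c)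

theorem mv_one (w : Vr ι m) : mv 1 w = w := by
  rcases w with ⟨i, j⟩ | w
  · rfl
  · rfl

theorem mv_mul (γ δ : ι → A5) (w : Vr ι m) : mv (γ * δ) w = mv γ (mv δ w) := by
  rcases w with ⟨i, j⟩ | w
  · rfl
  · rfl

theorem mc_one (c : Clause ι m) : mc 1 c = c := by
  funext k
  exact Prod.ext (mv_one _) rfl

theorem mc_mul (γ δ : ι → A5) (c : Clause ι m) : mc (γ * δ) c = mc γ (mc δ c) := by
  funext k
  exact Prod.ext (mv_mul _ _ _) rfl

theorem act_one (x : Clause ι m → Bool) : act 1 x = x := by
  funext c
  exact congrArg x (mc_one c)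

theorem act_mul (γ δ : ι → A5) (x : Clause ι m → Bool) : act (γ * δ) x = act δ (act γ x) := by
  funext c
  exact congrArg x (mc_mul γ δ c)

/-! ### The graph: vertices `Fin n × Bool`, edges `Fin n × Fin 3`; the edge `(i, t)` joins
`(i, false)` and `(σ t i, true)`. -/

/-- The edge of type `t` at the vertex `v`. -/
def inc {n : ℕ} (σ : Fin 3 → Equiv.Perm (Fin n)) (v : Fin n × Bool) (t : Fin 3) : Fin n × Fin 3 :=
  if v.2 then ((σ t).symm v.1, t) else (v.1, t)

/-- `u` and `w` are the ends of an edge outside `K`. -/
def Adj {n : ℕ} (σ : Fin 3 → Equiv.Perm (Fin n)) (K : Finset (Fin n × Fin 3))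
    (u w : Fin n × Bool) : Prop :=
  ∃ t, inc σ u t = inc σ w t ∧ u ≠ w ∧ inc σ u t ∉ K

/-- The two positions in a block which are used. -/
def pos (s : Bool) : Fin 5 := if s then 1 else 0

/-- The parity of a vertex clause. -/
def par (τ g : Fin 3 → Bool) : Bool :=
  ((τ 0 ^^ g 0) ^^ (τ 1 ^^ g 1)) ^^ (τ 2 ^^ g 2)

/-- The clauses of the formula with the charges `b`: for every edge `e` the clauses of the equation
`z_(e,0) + z_(e,1) = 1`, and for every vertex `v` and `τ` the clauses of the equation
`∑ t, z_(inc v t, τ t) = b v + ∑ t, τ t`. -/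
def IsCl {n : ℕ} (σ : Fin 3 → Equiv.Perm (Fin n)) (ε : Fin n × Fin 3 ↪ ι)
    (b : Fin n × Bool → Bool) (c : Clause ι m) : Prop :=
  (∃ (e : Fin n × Fin 3) (τ : Fin 3 → Bool) (s : Bool), (∃ k, τ k = false) ∧ (∃ k, τ k = true) ∧
    ∀ k, c k = (Sum.inl (ε e, pos (τ k)), s)) ∨
  ∃ (v : Fin n × Bool) (τ g : Fin 3 → Bool),
    (∀ t, c t = (Sum.inl (ε (inc σ v t), pos (τ t)), g t)) ∧ par τ g = b v

open Classical in
/-- The formula with the charges `b`. -/
noncomputable def X {n : ℕ} (σ : Fin 3 → Equiv.Perm (Fin n)) (ε : Fin n × Fin 3 ↪ ι)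
    (b : Fin n × Bool → Bool) : Clause ι m → Bool := fun c => decide (IsCl σ ε b c)

/-- The charges changed at the vertex `v`. -/
def flip {n : ℕ} (b : Fin n × Bool → Bool) (v : Fin n × Bool) : Fin n × Bool → Bool :=
  fun u => b u ^^ decide (u = v)

/-! ### The modules -/

/-- GRP. Subgroups of small index of a power of a nonabelian simple group contain all factors but
few. Proof: for `S : Finset ι` let `H_S` be the subgroup of the `γ` such that some `h ∈ H` agrees
with `γ` on `S`, and let `I_S` be the set of the `i ∈ S` such that not all `Pi.mulSingle i a` are in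
`H_S`. Show `2 ^ |I_S| ≤ index H_S` by induction on `S` (`H_univ = H`). Let `S' = insert k S`. If all
`mulSingle k a` are in `H_S'` then `I_S' ⊆ I_S` (correct the `k`-th coordinate). Otherwise
`H_S' < H_S`, as all `mulSingle k a` are in `H_S`. Call `i ∈ S \ I_S` bad if `i ∈ I_S'`. For bad `i`
the set of the `a` with `mulSingle i a ∈ H_S'` is a normal subgroup of `G` (conjugate by an `h ∈ H`
that agrees with `mulSingle i x` on `S`), hence trivial. For every `x` there is `φ x` with
`mulSingle i x * mulSingle k (φ x) ∈ H_S'`; `φ` is injective, hence surjective, and it follows that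
`mulSingle k a ∈ H_S'` only for `a = 1`; so the index of `H_S'` in `H_S` is at least `|G| ≥ 4`.
If there were two bad `i ≠ j` then the commutator of `mulSingle i x * mulSingle k a` and
`mulSingle j y * mulSingle k b` would be `mulSingle k ⁅a, b⁆`, so that `a b = b a` for all `a`, `b`.
So there is at most one bad `i`, and if there is one then `index H_S' ≥ 4 index H_S`, and otherwise
`index H_S' ≥ 2 index H_S`. At the end use `Subgroup.pi_mem_of_mulSingle_mem`. -/
def S_GRP : Prop := ∀ (ι G : Type) [Fintype ι] [DecidableEq ι] [Group G] [Fintype G]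
    [IsSimpleGroup G], (∃ a b : G, a * b ≠ b * a) → 4 ≤ Fintype.card G →
    ∀ H : Subgroup (ι → G), ∃ I : Finset ι, 2 ^ I.card ≤ H.index ∧
      ∀ γ : ι → G, (∀ i ∈ I, γ i = 1) → γ ∈ H

/-- SYM. The wiring of each gate of a symmetric circuit is fixed by a subgroup of index at most
`C.size`. (If `IsAut C γ π` then `C.eval x (π g) = C.eval (act γ x) g`, by induction on the rank, so
`view id C g (act γ) = view id C (π g) id`; the `γ` with `view id C g (act γ) = view id C g id` form a
subgroup, see `stab` in `Pool/Agent/Y600/Circ/Engine.lean`, and its cosets are mapped injectively to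
the gates.) -/
def S_SYM : Prop := ∀ (ι : Type) [Fintype ι] [DecidableEq ι] (m : ℕ) (D L : Type)
    (C : Circuit (Clause ι m) D L), Symmetric C →
    (∀ (γ : ι → A5) (x : Clause ι m → Bool), C.output (act γ x) = C.output x) ∧
    ∀ g : C.Gate, ∃ H : Subgroup (ι → A5), H.index ≤ C.size ∧
      ∀ γ ∈ H, view id C g (act γ) = view id C g id

/-- ENG. The values at the gates. Proof: choose `K g` for the gates `g` and show by induction on the
rank that `R (K g) x y` implies `C.eval x g = C.eval y g`. Let `F` be the finite set of the `γ` that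
are `1` on `K g`. Then `|F| • {(e.1, C.eval x e.2) | e ∈ C.wires g}` is the sum of the multisets
`{(e.1, C.eval (act γ x) e.2)}` over `γ ∈ F` and `e ∈ C.wires g`. For `e = (l, h)` choose `w ∈ F` with
`R (K h) x (act w y)`; then `R (K h) (act γ x) (act γ (act w y))`, and
`act γ (act w y) = act (w * γ) y`, where `w * γ` runs through `F` as well. See `value_related` in
`Pool/Agent/Y600/Circ/Engine.lean`, which can be imported and copied. -/
def S_ENG : Prop := ∀ (ι : Type) [Fintype ι] [DecidableEq ι] (m : ℕ) (D L : Type)
    (C : Circuit (Clause ι m) D L) (s : ℕ)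
    (R : Finset ι → (Clause ι m → Bool) → (Clause ι m → Bool) → Prop),
    (∀ g : C.Gate, ∃ K : Finset ι, K.card ≤ s ∧
      ∀ γ : ι → A5, (∀ i ∈ K, γ i = 1) → view id C g (act γ) = view id C g id) →
    (∀ K x y γ, R K x y → R K (act γ x) (act γ y)) →
    (∀ (K K' : Finset ι) x y, K.card ≤ s → K'.card ≤ s → R K x y →
      ∃ w : ι → A5, (∀ i ∈ K, w i = 1) ∧ R K' x (act w y)) →
    (∀ (K : Finset ι) x y (c : Clause ι m), R K x y →
      (∀ γ : ι → A5, (∀ i ∈ K, γ i = 1) → mc γ c = c) → x c = y c) →
    ∀ g : C.Gate, ∃ K : Finset ι, K.card ≤ s ∧ ∀ x y, R K x y → C.eval x g = C.eval y g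

/-- INST. The formulas. (1) Exchanging the positions `0` and `1` (and `2` and `3`, which are not
used) in the block of an edge changes the charges at both ends of the edge. (2), (3): the formula
without charges is satisfiable, with one charge it is not (sum the equations with `τ = 0`). (4) A
clause fixed by all `γ` that are `1` on `K` only contains variables of the blocks in `K` (or further
variables), and the clauses which contain only such variables do not depend on the charge at a vertex
with an edge outside `K`. -/
def S_INST : Prop := ∀ (ι : Type) [Fintype ι] [DecidableEq ι] (m n : ℕ)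
    (σ : Fin 3 → Equiv.Perm (Fin n)) (ε : Fin n × Fin 3 ↪ ι),
    (∃ s : A5, ∀ (t : Fin 3) (u w : Fin n × Bool), inc σ u t = inc σ w t → u ≠ w →
      ∀ b : Fin n × Bool → Bool,
        act (Pi.mulSingle (ε (inc σ u t)) s) (X (m := m) σ ε b) = X σ ε (flip (flip b u) w)) ∧
    Sat (X (m := m) σ ε fun _ => false) ∧
    (∀ v, ¬ Sat (X (m := m) σ ε (flip (fun _ => false) v))) ∧
    ∀ (K : Finset ι) (c : Clause ι m), (∀ γ : ι → A5, (∀ i ∈ K, γ i = 1) → mc γ c = c) →
      ∀ (γ δ : ι → A5), (∀ i ∈ K, γ i = δ i) → ∀ (b : Fin n × Bool → Bool) (v : Fin n × Bool),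
        (∃ t, ε (inc σ v t) ∉ K) →
        act γ (X σ ε b) c = act δ (X σ ε (flip b v)) c

/-- GRAPH. Large components. Take `σ 0 = 1`, `σ 1 = (finRotate n)⁻¹`, `σ 2 = π` with `π` from
`exists_expander` in `Pool/Agent/Helper600R2/Expander.lean`. For a set `S` of vertices let
`A(S) = {i | (i, false) ∈ S}`, `B(S) = {i | (i, true) ∈ S}`. If all edges that leave `S` are in `K`,
`|K| ≤ n / 60`, then `|A(S)| < n / 3` or `|A(S)| > 2 n / 3`: `i ∈ A(S)` but `π i ∉ A(S)` (or conversely)
implies that the edge `(i, 2)` leaves `S` or the edge `(π i, 0)` leaves `S`; these are different edges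
for different `i`, so `|bd π A(S)| ≤ n / 60`; similarly for `finRotate`: if the memberships of `i` and
`j = i + 1` in `A(S)` differ then the edge `(j, 1)` (which joins `(j, false)` and `(i, true)`) or the
edge `(i, 0)` leaves `S`. Call `S` big for `K` if its boundary is in `K` and `|A(S)| > 2 n / 3`. The
intersection of two big sets is big, the complement of a set with boundary in `K` that is not big is
big, and a big set for `K ⊆ K'` is big for `K'`. Let `Cp K` be the intersection of all big sets, which is
big. For `v ∈ Cp K` the set of the vertices that can be reached from `v` is big (otherwise its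
complement would be big and contain `v`), so it contains `Cp K`; and the set `{v}` is not big, so not
all edges at `v` are in `K`. -/
def S_GRAPH : Prop := ∀ n : ℕ, 25 ≤ n → ∃ (σ : Fin 3 → Equiv.Perm (Fin n))
    (Cp : Finset (Fin n × Fin 3) → Set (Fin n × Bool)),
    (∀ K, K.card ≤ n / 60 → (Cp K).Nonempty) ∧
    (∀ K K', K ⊆ K' → K'.card ≤ n / 60 → Cp K' ⊆ Cp K) ∧
    (∀ K, K.card ≤ n / 60 → ∀ v ∈ Cp K, ∀ w ∈ Cp K, Relation.ReflTransGen (Adj σ K) v w) ∧
    (∀ K, K.card ≤ n / 60 → ∀ v ∈ Cp K, ∃ t, inc σ v t ∉ K)

/-- UP. Symmetrization: one copy of the circuit for every element of the group, and an output gate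
that is true if all the copies are true. -/
def S_UP : Prop := ∀ (r m : ℕ) (L : Type) (C : Circuit (Clause (Fin r) m) Bool L),
    Decides C {true} → ∃ C' : Circuit (Clause (Fin r) m) Bool (Option L),
      Symmetric C' ∧ Decides C' {true} ∧ C'.size ≤ 60 ^ r * C.size + 1

end Pool.Agent.J6H49.SY
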