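import Pool.Agent.J6H49.SY.Defs

/-!
# Symmetric circuits and the approximation of MAX-3SAT: definitions and modules
-/

set_option autoImplicit false

namespace Pool.Agent.J6H49.SY

open Pool.Agent.Y600.Circ (Circuit view)

variable {ι : Type} {m : ℕ}

open Classical in
/-- The number of clauses of a formula. -/
noncomputable def numClauses [Fintype ι] (x : Clause ι m → Bool) : ℕ :=
  (Finset.univ.filter fun c => x c = true).card

open Classical in
/-- The number of clauses of a formula which the assignment `a` satisfies. -/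
noncomputable def numTrue [Fintype ι] (x : Clause ι m → Bool) (a : Vr ι m → Bool) : ℕ :=
  (Finset.univ.filter fun c => x c = true ∧ ∃ k, a (c k).1 = (c k).2).card

/-! ### Systems of equations: the variables are `Fin n × Fin 3`, the equation `v : Fin q` contains the
variables `(f v 0, 0)`, `(f v 1, 1)`, `(f v 2, 2)` -/

/-- The clauses of the formula with the right sides `b`: for every equation `v` and all `τ` the
clauses of `∑ t, z_(f v t, t, τ t) = b v + ∑ t, τ t`. -/
def IsCl2 {n q : ℕ} (f : Fin q → Fin 3 → Fin n) (ε : Fin n × Fin 3 ↪ ι)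
    (b : Fin q → Bool) (c : Clause ι m) : Prop :=
  ∃ (v : Fin q) (τ g : Fin 3 → Bool),
    (∀ t, c t = (Sum.inl (ε (f v t, t), pos (τ t)), g t)) ∧ par τ g = b v

open Classical in
/-- The formula with the right sides `b`. -/
noncomputable def X2 {n q : ℕ} (f : Fin q → Fin 3 → Fin n) (ε : Fin n × Fin 3 ↪ ι)
    (b : Fin q → Bool) : Clause ι m → Bool := fun c => decide (IsCl2 f ε b c)

/-- The right sides changed by the values of the left sides at `y`. -/
def add {n q : ℕ} (f : Fin q → Fin 3 → Fin n) (b : Fin q → Bool) (y : Fin n × Fin 3 → Bool) :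
    Fin q → Bool :=
  fun v => b v ^^ ((y (f v 0, 0) ^^ y (f v 1, 1)) ^^ y (f v 2, 2))

/-- The matrix of the system. -/
def mat {n q : ℕ} (f : Fin q → Fin 3 → Fin n) (v : Fin q) (e : Fin n × Fin 3) : ZMod 2 :=
  if f v e.2 = e.1 then 1 else 0

/-! ### The modules -/

/-- INST2. The formulas. (1) Exchanging the positions `0` and `1` (and `2` and `3`, which are not
used) in the blocks of the variables in `y`. (2) The homogeneous system gives a satisfiable formula
(`a = 1` exactly at the positions `1`). (3) A clause fixed by all `γ` that are `1` on `K` only contains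
variables of the blocks in `K` (or further variables), and the clauses which contain only such
variables do not depend on the right sides of equations with a variable outside `K`.
See `Pool/Agent/J6H28/SY/Inst.lean` for the proof of the similar statement `S_INST`. -/
def S_INST2 : Prop := ∀ (ι : Type) [Fintype ι] [DecidableEq ι] (m n q : ℕ)
    (f : Fin q → Fin 3 → Fin n) (ε : Fin n × Fin 3 ↪ ι),
    (∃ s : A5, ∀ (y : Fin n × Fin 3 → Bool), ∃ p : ι → A5,
      (∀ i, (∀ e, ε e = i → y e = false) → p i = 1) ∧
      (∀ e, p (ε e) = if y e then s else 1) ∧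
      ∀ b : Fin q → Bool, act p (X2 (m := m) f ε b) = X2 f ε (add f b y)) ∧
    Sat (X2 (m := m) f ε fun _ => false) ∧
    ∀ (K : Finset ι) (c : Clause ι m), (∀ γ : ι → A5, (∀ i ∈ K, γ i = 1) → mc γ c = c) →
      ∀ (γ δ : ι → A5), (∀ i ∈ K, γ i = δ i) → ∀ (b b' : Fin q → Bool),
        (∀ v, (∀ t, ε (f v t, t) ∈ K) → b v = b' v) →
        act γ (X2 f ε b) c = act δ (X2 f ε b') c

/-- GAP. If the equations are different and every assignment `z` satisfies at most `h` equations
`z (f v 0, 0) + z (f v 1, 1) + z (f v 2, 2) = b v`, then the formula has `32 q` clauses and no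
assignment satisfies more than `24 q + 8 h` of them. Proof: the clauses of different `(v, τ)` are
different. For an assignment `a` consider the `8 q` equations `(v, τ)`; `a` satisfies three or four of
the four clauses of `(v, τ)`, and four iff it satisfies the equation `(v, τ)`. So it is enough that the
number of `(v, τ)` which `a` satisfies is at most `8 h`. For each `e` let `z0 e`, `z1 e` be the values
of `a` at the positions `0`, `1` of the block of `e`. For `ρ : Fin n × Fin 3 → Bool` let
`z_ρ e = z0 e` if `ρ e = false`, and `z_ρ e = z1 e + 1` if `ρ e = true`. The equation `(v, τ)` is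
satisfied iff `z_ρ` satisfies the equation `v` for the `ρ` (all `ρ`) with `ρ (f v t, t) = τ t`. Sum over
all `ρ`: `∑_ρ #{v | z_ρ satisfies v} = ∑_v ∑_τ [a satisfies (v, τ)] * 2 ^ (3 n - 3)`, and the left side
is at most `2 ^ (3 n) * h`. -/
def S_GAP : Prop := ∀ (ι : Type) [Fintype ι] [DecidableEq ι] (m n q h : ℕ)
    (f : Fin q → Fin 3 → Fin n) (ε : Fin n × Fin 3 ↪ ι) (b : Fin q → Bool),
    Function.Injective f →
    (∀ z : Fin n × Fin 3 → Bool,
      (Finset.univ.filter fun v => add f b z v = false).card ≤ h) →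
    numClauses (X2 (m := m) f ε b) = 32 * q ∧
      ∀ a, numTrue (X2 (m := m) f ε b) a ≤ 24 * q + 8 * h

/-- EXP. Random systems expand: for `C ≥ 1` and all `n ≥ 1` there are `C n` equations such that
every set `S` of at most `n / (7776 C) ^ 3` equations satisfies `|S| ≤ 4 |odd S|`, `odd S` the set of
variables in an odd number of equations of `S`. Proof: if `4 |odd S| < |S| = k` then
`2 |N(S)| ≤ 3 k + |odd S|` for the set `N(S)` of all variables in equations of `S`, so
`|N(S)| ≤ w = ⌊13 k / 8⌋`. The number of `f` with `N(S) ⊆ W`, `|W| = w`, is at most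
`(w / n) ^ (3 k)` times the number of all `f`. With `q = C n`, `choose q k ≤ (3 q / k) ^ k` and
`choose (3 n) w ≤ (9 n / w) ^ w` (`choose_mul_pow_le` in `Pool/Agent/J6H94/TSp/Expand.lean`, which has
a similar proof) the proportion of the `f` which are bad for some `S` with `|S| = k` is at most
`T_k = (3 C n / k) ^ k (9 n / w) ^ w (w / n) ^ (3 k) ≤ (1944 C) ^ k (k / n) ^ (2 k - w)`, and
`8 (2 k - w) ≥ 3 k`, so `(4 ^ k T_k) ^ 8 ≤ ((7776 C) ^ 8 (k / n) ^ 3) ^ k ≤ 1`, and
`∑ 4 ^ (-k) < 1`. -/
def S_EXP : Prop := ∀ C n : ℕ, 1 ≤ C → 1 ≤ n → ∃ f : Fin (C * n) → Fin 3 → Fin n,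
    ∀ S : Finset (Fin (C * n)), S.card ≤ n / (7776 * C) ^ 3 →
      S.card ≤ 4 * (Finset.univ.filter fun e : Fin n × Fin 3 =>
        Odd (S.filter fun v => f v e.2 = e.1).card).card

/-- RHS. Random right sides: with `2 k ^ 2 n` equations there are right sides such that every
assignment satisfies at most `(1 / 2 + 1 / k)` of the equations. Proof: for fixed `z` the number of `b`
for which `z` satisfies at least `(1 / 2 + η) q` of the equations is at most `2 ^ q exp (- 2 η ^ 2 q)`
(`∑_b exp (a * (satisfied - not satisfied)) = (2 cosh a) ^ q`, `Real.cosh_le_exp_half_sq`, `a = 2 η`), and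
there are `8 ^ n` assignments. -/
def S_RHS : Prop := ∀ k n : ℕ, 1 ≤ k → 1 ≤ n →
    ∀ f : Fin (2 * k ^ 2 * n) → Fin 3 → Fin n, ∃ b : Fin (2 * k ^ 2 * n) → Bool,
      ∀ z : Fin n × Fin 3 → Bool,
        ((Finset.univ.filter fun v => add f b z v = false).card : ℝ) ≤
          (1 / 2 + 1 / (k : ℝ)) * ((2 * k ^ 2 * n : ℕ) : ℝ)

/-- LIN. Linear algebra modulo two. Proof: let `Z` be the set of the `S` with at most `t` nonzero
entries and `∑ v, S v * A v e = 0` for all `e ∉ K ∪ K'`. By the expansion they have at most `8 s`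
nonzero entries, so `Z` is closed under addition (`16 s ≤ t`). Let `M : Z → (E → ZMod 2)` map `S` to
`e ↦ if e ∈ K then 0 else ∑ v, S v * A v e`. By the hypothesis on `β` the functional
`S ↦ ∑ v, S v * β v` vanishes on the kernel of `M`, so it is `ψ ∘ M` for a linear functional `ψ` on
`E → ZMod 2`. Let `y e = 0` for `e ∈ K`, `y e = ψ (Pi.single e 1)` otherwise. -/
def S_LIN : Prop := ∀ (V E : Type) [Fintype V] [DecidableEq V] [Fintype E] [DecidableEq E]
    (A : V → E → ZMod 2) (s t : ℕ), 16 * s ≤ t →
    (∀ S : V → ZMod 2, (Finset.univ.filter fun v => S v ≠ 0).card ≤ t →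
      (Finset.univ.filter fun v => S v ≠ 0).card ≤
        4 * (Finset.univ.filter fun e => ∑ v, S v * A v e ≠ 0).card) →
    ∀ K K' : Finset E, K.card ≤ s → K'.card ≤ s → ∀ β : V → ZMod 2,
      (∀ S : V → ZMod 2, (Finset.univ.filter fun v => S v ≠ 0).card ≤ t →
        (∀ e, e ∉ K → ∑ v, S v * A v e = 0) → ∑ v, S v * β v = 0) →
      ∃ y : E → ZMod 2, (∀ e ∈ K, y e = 0) ∧
        ∀ S : V → ZMod 2, (Finset.univ.filter fun v => S v ≠ 0).card ≤ t →
          (∀ e, e ∉ K' → ∑ v, S v * A v e = 0) → ∑ v, S v * (β v + ∑ e, A v e * y e) = 0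

end Pool.Agent.J6H49.SY
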