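import Pool.Agent.J6H49.SY.Defs

/-!
# Assembly
-/

set_option autoImplicit false

namespace Pool.Agent.J6H49.SY

open Pool.Agent.Y600.Circ (Circuit view)
open Finset

section

variable {r m n : ℕ}

/-- the blocks of the edges -/
def eps (h : 3 * n ≤ r) : Fin n × Fin 3 ↪ Fin r where
  toFun e := ⟨3 * e.1.1 + e.2.1, by
    have h1 := e.1.2
    have h2 := e.2.2
    omega⟩
  inj' := by
    rintro ⟨⟨i, hi⟩, ⟨t, ht⟩⟩ ⟨⟨j, hj⟩, ⟨u, hu⟩⟩ h1
    have h2 : 3 * i + t = 3 * j + u := congrArg Fin.val h1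
    have h3 : i = j := by omega
    have h4 : t = u := by omega
    subst h3
    subst h4
    rfl

/-- the edges with blocks in `K` -/
def pre (ε : Fin n × Fin 3 ↪ Fin r) (K : Finset (Fin r)) : Finset (Fin n × Fin 3) :=
  univ.filter fun e => ε e ∈ K

theorem mem_pre {ε : Fin n × Fin 3 ↪ Fin r} {K : Finset (Fin r)} {e : Fin n × Fin 3} :
    e ∈ pre ε K ↔ ε e ∈ K := by
  simp [pre]

theorem card_pre (ε : Fin n × Fin 3 ↪ Fin r) (K : Finset (Fin r)) : (pre ε K).card ≤ K.card := by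
  rw [← card_map ε]
  refine card_le_card fun i hi => ?_
  obtain ⟨e, he, rfl⟩ := mem_map.1 hi
  exact mem_pre.1 he

theorem pre_mono (ε : Fin n × Fin 3 ↪ Fin r) {K K' : Finset (Fin r)} (h : K ⊆ K') :
    pre ε K ⊆ pre ε K' := fun _ he => mem_pre.2 (h (mem_pre.1 he))

theorem flip_flip (b : Fin n × Bool → Bool) (v : Fin n × Bool) : flip (flip b v) v = b := by
  funext u
  simp [flip]

/-- the charge is moved along a path -/
theorem path (h4 : S_INST) (σ : Fin 3 → Equiv.Perm (Fin n)) (ε : Fin n × Fin 3 ↪ Fin r)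
    (K : Finset (Fin r)) {v w : Fin n × Bool} (h : Relation.ReflTransGen (Adj σ (pre ε K)) v w) :
    ∃ p : Fin r → A5, (∀ i ∈ K, p i = 1) ∧ ∀ b : Fin n × Bool → Bool,
      act p (X (m := m) σ ε (flip b v)) = X σ ε (flip b w) := by
  obtain ⟨⟨s, hs⟩, -, -, -⟩ := h4 (Fin r) m n σ ε
  induction h with
  | refl => exact ⟨1, fun i _ => rfl, fun b => act_one _⟩
  | @tail u w' _ h2 ih =>
    obtain ⟨p, hp1, hp2⟩ := ih
    obtain ⟨t, ht1, ht2, ht3⟩ := h2
    refine ⟨p * Pi.mulSingle (ε (inc σ u t)) s, fun i hi => ?_, fun b => ?_⟩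
    · rw [Pi.mul_apply, hp1 i hi, one_mul]
      refine Pi.mulSingle_eq_of_ne (fun h => ht3 (mem_pre.2 ?_)) _
      rw [← h]
      exact hi
    · rw [act_mul, hp2 b, hs t _ _ ht1 ht2, flip_flip]

theorem card_A5 : Fintype.card A5 = 60 := by
  have h := two_mul_card_alternatingGroup (α := Fin 5)
  have h5 : Fintype.card (Equiv.Perm (Fin 5)) = 120 := by
    rw [Fintype.card_perm, Fintype.card_fin]
    rfl
  rw [h5] at h
  have h6 : 2 * Fintype.card A5 = 120 := by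
    rw [← h]
  omega

instance : IsSimpleGroup A5 := alternatingGroup.isSimpleGroup_five

theorem A5_noncomm : ∃ a b : A5, a * b ≠ b * a := by
  refine ⟨⟨Equiv.swap 0 1 * Equiv.swap 2 3, ?_⟩, ⟨Equiv.swap 0 1 * Equiv.swap 2 4, ?_⟩, ?_⟩
  · rw [Equiv.Perm.mem_alternatingGroup, Equiv.Perm.sign_mul, Equiv.Perm.sign_swap (by decide),
      Equiv.Perm.sign_swap (by decide)]
    rfl
  · rw [Equiv.Perm.mem_alternatingGroup, Equiv.Perm.sign_mul, Equiv.Perm.sign_swap (by decide),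
      Equiv.Perm.sign_swap (by decide)]
    rfl
  intro h
  have h1 := congrArg (fun g : A5 => (g : Equiv.Perm (Fin 5)) 2) h
  exact absurd h1 (by decide)

theorem key (h1 : S_GRP) (h2 : S_SYM) (h3 : S_ENG) (h4 : S_INST) (h5 : S_GRAPH)
    {s : ℕ} (hn : 25 ≤ n) (hrn : 3 * n ≤ r) (hsn : 2 * s ≤ n / 60) :
    ∃ x y : Clause (Fin r) m → Bool, Sat x ∧ ¬ Sat y ∧
      ∀ (D L : Type) (C : Circuit (Clause (Fin r) m) D L), Symmetric C → C.size < 2 ^ s →
        C.output x = C.output y := by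
  obtain ⟨σ, Cp, g1, g2, g3, g4⟩ := h5 n hn
  let ε := eps hrn
  obtain ⟨-, i2, i3, i4⟩ := h4 (Fin r) m n σ ε
  obtain ⟨v₀, hv₀⟩ := g1 ∅ (by simp)
  refine ⟨X σ ε fun _ => false, X σ ε (flip (fun _ => false) v₀), i2, i3 v₀, ?_⟩
  intro D L C hC hsize
  obtain ⟨y1, y2⟩ := h2 (Fin r) m D L C hC
  let R : Finset (Fin r) → (Clause (Fin r) m → Bool) → (Clause (Fin r) m → Bool) → Prop :=
    fun K x y => K.card ≤ s ∧ ∃ (γ δ : Fin r → A5) (b : Fin n × Bool → Bool) (v : Fin n × Bool),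
      x = act γ (X σ ε b) ∧ y = act δ (X σ ε (flip b v)) ∧ (∀ i ∈ K, γ i = δ i) ∧ v ∈ Cp (pre ε K)
  have hsupp : ∀ g : C.Gate, ∃ K : Finset (Fin r), K.card ≤ s ∧
      ∀ γ : Fin r → A5, (∀ i ∈ K, γ i = 1) → view id C g (act γ) = view id C g id := by
    intro g
    obtain ⟨H, hH1, hH2⟩ := y2 g
    obtain ⟨K, hK1, hK2⟩ := h1 (Fin r) A5 A5_noncomm (by rw [card_A5]; norm_num) H
    refine ⟨K, ?_, fun γ hγ => hH2 γ (hK2 γ hγ)⟩
    have h6 : 2 ^ K.card < 2 ^ s := (hK1.trans hH1).trans_lt hsize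
    exact ((Nat.pow_lt_pow_iff_right (by norm_num)).1 h6).le
  have heng := h3 (Fin r) m D L C s R hsupp ?_ ?_ ?_
  · obtain ⟨K, hK, hK2⟩ := heng C.out
    have hpK : (pre ε K).card ≤ n / 60 := (card_pre ε K).trans (by omega)
    obtain ⟨v, hv⟩ := g1 (pre ε K) hpK
    have h6 : R K (X σ ε fun _ => false) (X σ ε (flip (fun _ => false) v)) :=
      ⟨hK, 1, 1, _, v, (act_one _).symm, (act_one _).symm, fun i _ => rfl, hv⟩
    have h7 : C.output (X σ ε fun _ => false) = C.output (X σ ε (flip (fun _ => false) v)) :=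
      hK2 _ _ h6
    have h8 : v ∈ Cp ∅ := g2 ∅ _ (empty_subset _) hpK hv
    have h9 := g3 ∅ (by simp) v₀ hv₀ v h8
    have h10 : pre ε (∅ : Finset (Fin r)) = ∅ := by
      ext e
      simp [mem_pre]
    rw [← h10] at h9
    obtain ⟨p, -, hp⟩ := path (m := m) h4 σ ε ∅ h9
    rw [h7, ← hp, y1]
  · rintro K x y τ ⟨hK, γ, δ, b, v, rfl, rfl, hγ, hv⟩
    refine ⟨hK, γ * τ, δ * τ, b, v, (act_mul _ _ _).symm, (act_mul _ _ _).symm, fun i hi => ?_, hv⟩
    rw [Pi.mul_apply, Pi.mul_apply, hγ i hi]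
  · rintro K K' x y hKs hK's ⟨hK, γ, δ, b, v, rfl, rfl, hγ, hv⟩
    have hu : (pre ε (K ∪ K')).card ≤ n / 60 := by
      have h6 := card_pre ε (K ∪ K')
      have h7 := card_union_le K K'
      omega
    obtain ⟨v', hv'⟩ := g1 _ hu
    have hvK : v' ∈ Cp (pre ε K) := g2 _ _ (pre_mono ε subset_union_left) hu hv'
    have hvK' : v' ∈ Cp (pre ε K') := g2 _ _ (pre_mono ε subset_union_right) hu hv'
    have hpK : (pre ε K).card ≤ n / 60 := (card_pre ε K).trans (by omega)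
    obtain ⟨p, hp1, hp2⟩ := path (m := m) h4 σ ε K (g3 _ hpK v hv v' hvK)
    refine ⟨δ⁻¹ * (p * γ), fun i hi => ?_, hK's, γ, γ, b, v', rfl, ?_, fun _ _ => rfl, hvK'⟩
    · rw [Pi.mul_apply, Pi.mul_apply, Pi.inv_apply, hp1 i hi, one_mul, hγ i hi, inv_mul_cancel]
    · rw [← act_mul, mul_inv_cancel_left, act_mul, hp2]
  · rintro K x y c ⟨hK, γ, δ, b, v, rfl, rfl, hγ, hv⟩ hc
    have hpK : (pre ε K).card ≤ n / 60 := (card_pre ε K).trans (by omega)
    obtain ⟨t, ht⟩ := g4 _ hpK v hv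
    exact i4 K c hc γ δ hγ b v ⟨t, fun h => ht (mem_pre.2 h)⟩

theorem key' (h1 : S_GRP) (h2 : S_SYM) (h3 : S_ENG) (h4 : S_INST) (h5 : S_GRAPH)
    (hr : 1 ≤ r) : ∃ x y : Clause (Fin r) m → Bool, Sat x ∧ ¬ Sat y ∧
      ∀ (D L : Type) (C : Circuit (Clause (Fin r) m) D L), Symmetric C → C.size < 2 ^ (r / 360) →
        C.output x = C.output y := by
  by_cases h : 1 ≤ r / 360
  · exact key (n := r / 3) h1 h2 h3 h4 h5 (by omega) (by omega) (by omega)
  · refine ⟨fun _ => false, fun _ => true, ⟨fun _ => false, fun c hc => by simp at hc⟩, ?_, ?_⟩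
    · rintro ⟨a, ha⟩
      obtain ⟨k, hk⟩ := ha (fun _ => (Sum.inl (⟨0, hr⟩, 0), true)) rfl
      obtain ⟨k', hk'⟩ := ha (fun _ => (Sum.inl (⟨0, hr⟩, 0), false)) rfl
      exact Bool.noConfusion (hk.symm.trans hk')
    · intro D L C _ hs
      have h2 : r / 360 = 0 := by omega
      rw [h2, pow_zero] at hs
      have h3 : 0 < C.size := (@Fintype.card_pos_iff _ C.finite).2 ⟨C.out⟩
      omega

end

end Pool.Agent.J6H49.SY
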