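import Pool.Agent.J6H49.SY.Defs2
import Pool.Agent.J6H49.SY.Fin

/-!
# Assembly of the second version
-/

set_option autoImplicit false

namespace Pool.Agent.J6H49.SY

open Pool.Agent.Y600.Circ (Circuit view)
open Finset

section

variable {r m n q : ℕ}

/-- truth values as numbers modulo two -/
def toZ (b : Bool) : ZMod 2 := if b then 1 else 0

theorem toZ_xor (b c : Bool) : toZ (b ^^ c) = toZ b + toZ c := by
  cases b <;> cases c <;> decide

theorem toZ_decide (y : ZMod 2) : toZ (decide (y ≠ 0)) = y := by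
  revert y
  decide

theorem eq_of_toZ {b c : Bool} (h : toZ b + toZ c = 0) : b = c := by
  revert h
  cases b <;> cases c <;> decide

theorem sum_mat (f : Fin q → Fin 3 → Fin n) (v : Fin q) (y : Fin n × Fin 3 → ZMod 2) :
    ∑ e, mat f v e * y e = (y (f v 0, 0) + y (f v 1, 1)) + y (f v 2, 2) := by
  rw [Fintype.sum_prod_type_right]
  have h : ∀ t : Fin 3, ∑ j : Fin n, mat f v (j, t) * y (j, t) = y (f v t, t) := by
    intro t
    rw [sum_eq_single (f v t)]
    · simp [mat]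
    · intro j _ hj
      simp [mat, Ne.symm hj]
    · intro h
      exact absurd (mem_univ _) h
  rw [Fin.sum_univ_three, h, h, h]

theorem toZ_add (f : Fin q → Fin 3 → Fin n) (b : Fin q → Bool) (y : Fin n × Fin 3 → ZMod 2)
    (v : Fin q) :
    toZ (add f b (fun e => decide (y e ≠ 0)) v) = toZ (b v) + ∑ e, mat f v e * y e := by
  rw [add, toZ_xor, toZ_xor, toZ_xor, toZ_decide, toZ_decide, toZ_decide, sum_mat]

/-- the parities of all sets of at most `t` equations whose variables outside `K` cancel agree -/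
def Good (f : Fin q → Fin 3 → Fin n) (t : ℕ) (K : Finset (Fin n × Fin 3))
    (b b' : Fin q → Bool) : Prop :=
  ∀ S : Fin q → ZMod 2, (univ.filter fun v => S v ≠ 0).card ≤ t →
    (∀ e, e ∉ K → ∑ v, S v * mat f v e = 0) → ∑ v, S v * (toZ (b v) + toZ (b' v)) = 0

theorem Good.eq {f : Fin q → Fin 3 → Fin n} {t : ℕ} {K : Finset (Fin n × Fin 3)}
    {b b' : Fin q → Bool} (h : Good f t K b b') (ht : 1 ≤ t) {v : Fin q}
    (hv : ∀ u, (f v u, u) ∈ K) : b v = b' v := by
  classical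
  have h1 := h (Pi.single v 1) ?_ ?_
  · rw [sum_eq_single v] at h1
    · rw [Pi.single_eq_same, one_mul] at h1
      exact eq_of_toZ h1
    · intro w _ hw
      rw [Pi.single_eq_of_ne hw, zero_mul]
    · intro h2
      exact absurd (mem_univ _) h2
  · have h2 : (univ.filter fun w => (Pi.single v 1 : Fin q → ZMod 2) w ≠ 0) ⊆ {v} := by
      intro w hw
      rw [mem_filter] at hw
      rw [mem_singleton]
      by_contra hne
      exact hw.2 (Pi.single_eq_of_ne hne _)
    exact (card_le_card h2).trans (by rw [card_singleton]; exact ht)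
  · intro e he
    rw [sum_eq_single v]
    · rw [Pi.single_eq_same, one_mul, mat, if_neg]
      intro h3
      refine he ?_
      have h4 := hv e.2
      rw [h3] at h4
      exact h4
    · intro w _ hw
      rw [Pi.single_eq_of_ne hw, zero_mul]
    · intro h2
      exact absurd (mem_univ _) h2

theorem sum_eq_card (f : Fin q → Fin 3 → Fin n) (S : Fin q → ZMod 2) (e : Fin n × Fin 3) :
    ∑ v, S v * mat f v e =
      ((((univ.filter fun v => S v ≠ 0).filter fun v => f v e.2 = e.1).card : ℕ) : ZMod 2) := by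
  rw [card_eq_sum_ones, Nat.cast_sum, filter_filter, sum_filter]
  refine sum_congr rfl fun v _ => ?_
  have h1 : ∀ y : ZMod 2, y ≠ 0 → y = 1 := by decide
  by_cases h2 : S v = 0
  · simp [h2]
  · by_cases h3 : f v e.2 = e.1
    · simp [mat, h3, h1 _ h2]
    · simp [mat, h3]

theorem expand (f : Fin q → Fin 3 → Fin n) {t : ℕ}
    (hf : ∀ S : Finset (Fin q), S.card ≤ t → S.card ≤ 4 * (univ.filter fun e : Fin n × Fin 3 =>
      Odd (S.filter fun v => f v e.2 = e.1).card).card) (S : Fin q → ZMod 2)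
    (hS : (univ.filter fun v => S v ≠ 0).card ≤ t) :
    (univ.filter fun v => S v ≠ 0).card ≤
      4 * (univ.filter fun e => ∑ v, S v * mat f v e ≠ 0).card := by
  refine (hf _ hS).trans (Nat.mul_le_mul_left _ (card_le_card fun e he => ?_))
  rw [mem_filter] at he ⊢
  refine ⟨mem_univ _, ?_⟩
  rw [sum_eq_card]
  exact ZMod.natCast_ne_zero_iff_odd.2 he.2

theorem injective (f : Fin q → Fin 3 → Fin n) {t : ℕ} (ht : 2 ≤ t)
    (hf : ∀ S : Finset (Fin q), S.card ≤ t → S.card ≤ 4 * (univ.filter fun e : Fin n × Fin 3 =>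
      Odd (S.filter fun v => f v e.2 = e.1).card).card) : Function.Injective f := by
  intro v w hvw
  by_contra hne
  have h1 := hf {v, w} (by rw [card_pair hne]; exact ht)
  rw [card_pair hne] at h1
  have h2 : (univ.filter fun e : Fin n × Fin 3 =>
      Odd ((({v, w} : Finset (Fin q)).filter fun v => f v e.2 = e.1).card)) = ∅ := by
    rw [filter_eq_empty_iff]
    intro e _
    by_cases h3 : f v e.2 = e.1
    · have h4 : (({v, w} : Finset (Fin q)).filter fun v => f v e.2 = e.1) = {v, w} := by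
        rw [filter_eq_self]
        intro u hu
        rw [mem_insert, mem_singleton] at hu
        rcases hu with rfl | rfl
        · exact h3
        · rw [← hvw]
          exact h3
      rw [h4, card_pair hne]
      decide
    · have h4 : (({v, w} : Finset (Fin q)).filter fun v => f v e.2 = e.1) = ∅ := by
        rw [filter_eq_empty_iff]
        intro u hu
        rw [mem_insert, mem_singleton] at hu
        rcases hu with rfl | rfl
        · exact h3
        · rw [← hvw]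
          exact h3
      rw [h4, card_empty]
      decide
  rw [h2, card_empty] at h1
  omega

/-- one step of the extension -/
theorem extend (l1 : S_LIN) (l2 : S_INST2) (f : Fin q → Fin 3 → Fin n) (ε : Fin n × Fin 3 ↪ Fin r)
    {s t : ℕ} (hst : 16 * s ≤ t)
    (hf : ∀ S : Finset (Fin q), S.card ≤ t → S.card ≤ 4 * (univ.filter fun e : Fin n × Fin 3 =>
      Odd (S.filter fun v => f v e.2 = e.1).card).card)
    (K K' : Finset (Fin r)) (hK : K.card ≤ s) (hK' : K'.card ≤ s) (b b' : Fin q → Bool)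
    (h : Good f t (pre ε K) b b') :
    ∃ (p : Fin r → A5) (b'' : Fin q → Bool), (∀ i ∈ K, p i = 1) ∧
      act p (X2 (m := m) f ε b') = X2 f ε b'' ∧ Good f t (pre ε K') b b'' := by
  classical
  obtain ⟨⟨s₀, hs₀⟩, -, -⟩ := l2 (Fin r) m n q f ε
  obtain ⟨y, hy1, hy2⟩ := l1 (Fin q) (Fin n × Fin 3) (mat f) s t hst (fun S hS => expand f hf S hS)
    (pre ε K) (pre ε K') ((card_pre ε K).trans hK) ((card_pre ε K').trans hK')
    (fun v => toZ (b v) + toZ (b' v)) h
  obtain ⟨p, hp1, -, hp2⟩ := hs₀ fun e => decide (y e ≠ 0)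
  refine ⟨p, _, fun i hi => hp1 i fun e he => ?_, hp2 b', fun S hS hS2 => ?_⟩
  · have h1 : y e = 0 := hy1 e (mem_pre.2 (by rw [he]; exact hi))
    simp [h1]
  · refine (sum_congr rfl fun v _ => ?_).trans (hy2 S hS hS2)
    rw [toZ_add, add_assoc]

theorem key2 (h1 : S_GRP) (h2 : S_SYM) (h3 : S_ENG) (l1 : S_LIN) (l2 : S_INST2)
    (f : Fin q → Fin 3 → Fin n) (ε : Fin n × Fin 3 ↪ Fin r)
    {s t : ℕ} (ht : 1 ≤ t) (hst : 16 * s ≤ t)
    (hf : ∀ S : Finset (Fin q), S.card ≤ t → S.card ≤ 4 * (univ.filter fun e : Fin n × Fin 3 =>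
      Odd (S.filter fun v => f v e.2 = e.1).card).card) (b₀ : Fin q → Bool)
    (D L : Type) (C : Circuit (Clause (Fin r) m) D L) (hC : Symmetric C) (hsize : C.size < 2 ^ s) :
    C.output (X2 f ε fun _ => false) = C.output (X2 f ε b₀) := by
  classical
  obtain ⟨-, -, i3⟩ := l2 (Fin r) m n q f ε
  obtain ⟨y1, y2⟩ := h2 (Fin r) m D L C hC
  let R : Finset (Fin r) → (Clause (Fin r) m → Bool) → (Clause (Fin r) m → Bool) → Prop :=
    fun K x y => K.card ≤ s ∧ ∃ (γ δ : Fin r → A5) (b b' : Fin q → Bool),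
      x = act γ (X2 f ε b) ∧ y = act δ (X2 f ε b') ∧ (∀ i ∈ K, γ i = δ i) ∧
        Good f t (pre ε K) b b'
  have hsupp : ∀ g : C.Gate, ∃ K : Finset (Fin r), K.card ≤ s ∧
      ∀ γ : Fin r → A5, (∀ i ∈ K, γ i = 1) → view id C g (act γ) = view id C g id := by
    intro g
    obtain ⟨H, hH1, hH2⟩ := y2 g
    obtain ⟨K, hK1, hK2⟩ := h1 (Fin r) A5 A5_noncomm (by rw [card_A5]; norm_num) H
    refine ⟨K, ?_, fun γ hγ => hH2 γ (hK2 γ hγ)⟩
    have h6 : 2 ^ K.card < 2 ^ s := (hK1.trans hH1).trans_lt hsize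
    exact ((Nat.pow_lt_pow_iff_right (by norm_num)).1 h6).le
  have heng := h3 (Fin r) m D L C s R hsupp ?_ ?_ ?_
  · obtain ⟨K, hK, hK2⟩ := heng C.out
    have h6 : Good f t (pre ε ∅) (fun _ => false) b₀ := by
      intro S hS hS2
      have h7 := expand f hf S hS
      have h8 : (univ.filter fun e => ∑ v, S v * mat f v e ≠ 0) = ∅ := by
        rw [filter_eq_empty_iff]
        intro e _
        rw [not_not]
        refine hS2 e fun h => ?_
        have h9 := mem_pre.1 h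
        simp at h9
      rw [h8, card_empty, mul_zero, Nat.le_zero, card_eq_zero, filter_eq_empty_iff] at h7
      refine sum_eq_zero fun v _ => ?_
      rw [not_not.1 (h7 (mem_univ v)), zero_mul]
    obtain ⟨p, b'', -, hp2, hp3⟩ := extend (m := m) l1 l2 f ε hst hf ∅ K (by simp) hK _ _ h6
    have h7 : R K (X2 f ε fun _ => false) (X2 f ε b'') :=
      ⟨hK, 1, 1, _, _, (act_one _).symm, (act_one _).symm, fun i _ => rfl, hp3⟩
    have h8 : C.output (X2 f ε fun _ => false) = C.output (X2 f ε b'') := hK2 _ _ h7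
    rw [h8, ← hp2, y1]
  · rintro K x y τ ⟨hK, γ, δ, b, b', rfl, rfl, hγ, hg⟩
    refine ⟨hK, γ * τ, δ * τ, b, b', (act_mul _ _ _).symm, (act_mul _ _ _).symm, fun i hi => ?_,
      hg⟩
    rw [Pi.mul_apply, Pi.mul_apply, hγ i hi]
  · rintro K K' x y hKs hK's ⟨hK, γ, δ, b, b', rfl, rfl, hγ, hg⟩
    obtain ⟨p, b'', hp1, hp2, hp3⟩ := extend (m := m) l1 l2 f ε hst hf K K' hKs hK's _ _ hg
    refine ⟨δ⁻¹ * (p * γ), fun i hi => ?_, hK's, γ, γ, b, b'', rfl, ?_, fun _ _ => rfl, hp3⟩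
    · rw [Pi.mul_apply, Pi.mul_apply, Pi.inv_apply, hp1 i hi, one_mul, hγ i hi, inv_mul_cancel]
    · rw [← act_mul, mul_inv_cancel_left, act_mul, hp2]
  · rintro K x y c ⟨hK, γ, δ, b, b', rfl, rfl, hγ, hg⟩ hc
    exact i3 K c hc γ δ hγ b b' fun v hv => hg.eq ht fun u => mem_pre.2 (hv u)

/-- the clauses have three different variables -/
theorem three (f : Fin q → Fin 3 → Fin n) (ε : Fin n × Fin 3 ↪ Fin r) (b : Fin q → Bool)
    {c : Clause (Fin r) m} (hc : X2 f ε b c = true) : Function.Injective fun k => (c k).1 := by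
  have hc' : IsCl2 f ε b c := by
    classical
    exact of_decide_eq_true hc
  obtain ⟨v, τ, g, h, -⟩ := hc'
  intro k l hkl
  have h1 : (c k).1 = (c l).1 := hkl
  rw [h k, h l] at h1
  have h2 := congrArg Prod.fst (Sum.inl.inj h1)
  exact congrArg Prod.snd (ε.injective h2)

/-- **Main theorem**, second version. -/
theorem main2 (h1 : S_GRP) (h2 : S_SYM) (h3 : S_ENG) (l1 : S_LIN) (l2 : S_INST2) (l3 : S_EXP)
    (l4 : S_RHS) (l5 : S_GAP) (ε : ℝ) (hε : 0 < ε) : ∃ K : ℕ, 0 < K ∧ ∀ r m : ℕ, K ≤ r →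
      ∃ x y : Clause (Fin r) m → Bool,
        (∀ c, x c = true ∨ y c = true → Function.Injective fun k => (c k).1) ∧
        Sat x ∧ numClauses x = numClauses y ∧ 0 < numClauses y ∧
        (∀ a, (numTrue y a : ℝ) ≤ (7 / 8 + ε) * numClauses y) ∧
        ∀ (D L : Type) (C : Circuit (Clause (Fin r) m) D L), Symmetric C →
          C.size < 2 ^ (r / K) → C.output x = C.output y := by
  classical
  obtain ⟨k, hk⟩ := exists_nat_one_div_lt hε
  obtain ⟨k', hk'⟩ : ∃ k' : ℕ, k' = k + 1 := ⟨_, rfl⟩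
  have hk0 : 1 ≤ k' := by omega
  obtain ⟨c, hc⟩ : ∃ c : ℕ, c = 2 * k' ^ 2 := ⟨_, rfl⟩
  have hc1 : 1 ≤ c := by
    rw [hc]
    exact Nat.succ_le_of_lt (Nat.mul_pos two_pos (Nat.pow_pos hk0))
  obtain ⟨D, hD⟩ : ∃ D : ℕ, D = (7776 * c) ^ 3 := ⟨_, rfl⟩
  have hD0 : 0 < D := by
    rw [hD]
    exact Nat.pow_pos (Nat.mul_pos (by norm_num) hc1)
  refine ⟨48 * D, Nat.mul_pos (by norm_num) hD0, fun r m hr => ?_⟩
  have hn : 1 ≤ r / 3 := by omega
  obtain ⟨f, hf⟩ := l3 c (r / 3) hc1 hn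
  rw [← hD] at hf
  replace l4 := l4 k' (r / 3) hk0 hn
  rw [← hc] at l4
  have h16 : 16 * (r / (48 * D)) ≤ r / 3 / D := by
    rw [Nat.div_div_eq_div_mul]
    have h6 : r / (48 * D) = r / (3 * D) / 16 := by
      rw [Nat.div_div_eq_div_mul]
      congr 1
      ring
    rw [h6]
    exact Nat.mul_div_le _ _
  have hs1 : 1 ≤ r / (48 * D) := (Nat.one_le_div_iff (Nat.mul_pos (by norm_num) hD0)).2 hr
  obtain ⟨b₀, hb₀⟩ := l4 f
  have hrn : 3 * (r / 3) ≤ r := by omega
  have hinj : Function.Injective f := injective f (t := r / 3 / D) (by omega) hf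
  have hx := (l5 (Fin r) m (r / 3) (c * (r / 3)) (c * (r / 3)) f (eps hrn) (fun _ => false) hinj
    (fun z => (card_filter_le _ _).trans (by rw [card_univ, Fintype.card_fin]))).1
  have hfl : ∀ z : Fin (r / 3) × Fin 3 → Bool,
      (univ.filter fun v => add f b₀ z v = false).card ≤
        ⌊(1 / 2 + 1 / (k' : ℝ)) * ((c * (r / 3) : ℕ) : ℝ)⌋₊ := by
    intro z
    refine Nat.le_floor ?_
    exact hb₀ z
  obtain ⟨hy1, hy2⟩ := l5 (Fin r) m (r / 3) (c * (r / 3)) _ f (eps hrn) b₀ hinj hfl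
  obtain ⟨-, i2, -⟩ := l2 (Fin r) m (r / 3) (c * (r / 3)) f (eps hrn)
  refine ⟨X2 f (eps hrn) fun _ => false, X2 f (eps hrn) b₀, ?_, i2, by rw [hx, hy1], ?_, ?_, ?_⟩
  · rintro c (hc | hc)
    · exact three f _ _ hc
    · exact three f _ _ hc
  · rw [hy1]
    exact Nat.mul_pos (by norm_num) (Nat.mul_pos hc1 hn)
  · intro a
    rw [hy1]
    have hQ : (0 : ℝ) ≤ ((c * (r / 3) : ℕ) : ℝ) := Nat.cast_nonneg _
    have h7 : (numTrue (X2 (m := m) f (eps hrn) b₀) a : ℝ) ≤ 24 * ((c * (r / 3) : ℕ) : ℝ) +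
        8 * ((1 / 2 + 1 / (k' : ℝ)) * ((c * (r / 3) : ℕ) : ℝ)) := by
      refine (Nat.cast_le.2 (hy2 a)).trans ?_
      have h8 : (⌊(1 / 2 + 1 / (k' : ℝ)) * ((c * (r / 3) : ℕ) : ℝ)⌋₊ : ℝ) ≤
          (1 / 2 + 1 / (k' : ℝ)) * ((c * (r / 3) : ℕ) : ℝ) := Nat.floor_le (by positivity)
      rw [Nat.cast_add, Nat.cast_mul, Nat.cast_mul]
      push_cast at h8 ⊢
      linarith
    refine h7.trans ?_
    have h9 : 1 / (k' : ℝ) ≤ ε := by
      rw [hk']
      push_cast
      exact hk.le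
    rw [Nat.cast_mul 32]
    generalize ((c * (r / 3) : ℕ) : ℝ) = Q at *
    have h10 : (0 : ℝ) ≤ Q := hQ
    have h11 : 1 / (k' : ℝ) * Q ≤ ε * Q := mul_le_mul_of_nonneg_right h9 h10
    have h12 : 0 ≤ ε * Q := mul_nonneg hε.le h10
    push_cast
    nlinarith
  · intro D' L C hC hsize
    exact key2 h1 h2 h3 l1 l2 f (eps hrn) (t := r / 3 / D) (by omega) h16 hf b₀ D' L C hC hsize

end

end Pool.Agent.J6H49.SY
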