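import Pool.Agent.J6H49.SY.Z2

/-!
# Assembly of the third version
-/

set_option autoImplicit false

namespace Pool.Agent.J6H49.SY.Z2

open Pool.Agent.Y600.Circ (Circuit view)
open Pool.Agent.J6H49.SY (add toZ par toZ_xor toZ_decide eq_of_toZ eps)
open Finset

section

variable {r m n q : ℕ}

/-- the matrix of the system -/
def A3 (f : Fin q → Fin 3 → Fin n) (ε : Fin n × Fin 3 ↪ Fin r) (v : Fin q) (i : Fin r) : ZMod 2 :=
  ∑ t : Fin 3, if ε (f v t, t) = i then 1 else 0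

theorem sum_A3 (f : Fin q → Fin 3 → Fin n) (ε : Fin n × Fin 3 ↪ Fin r) (v : Fin q)
    (y : Fin r → ZMod 2) : ∑ i, A3 f ε v i * y i =
      (y (ε (f v 0, 0)) + y (ε (f v 1, 1))) + y (ε (f v 2, 2)) := by
  unfold A3
  simp only [sum_mul]
  rw [sum_comm]
  have h : ∀ t : Fin 3, ∑ i : Fin r, (if ε (f v t, t) = i then (1 : ZMod 2) else 0) * y i =
      y (ε (f v t, t)) := by
    intro t
    rw [sum_eq_single (ε (f v t, t))]
    · simp
    · intro i _ hi
      simp [Ne.symm hi]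
    · intro h
      exact absurd (mem_univ _) h
  rw [Fin.sum_univ_three, h, h, h]

theorem A3_eps (f : Fin q → Fin 3 → Fin n) (ε : Fin n × Fin 3 ↪ Fin r) (v : Fin q)
    (e : Fin n × Fin 3) : A3 f ε v (ε e) = if f v e.2 = e.1 then 1 else 0 := by
  unfold A3
  rw [sum_eq_single e.2]
  · by_cases h : f v e.2 = e.1
    · rw [if_pos h, if_pos]
      rw [h]
    · rw [if_neg h, if_neg]
      intro h2
      exact h (congrArg Prod.fst (ε.injective h2))
  · intro t _ ht
    rw [if_neg]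
    intro h2
    exact ht (congrArg Prod.snd (ε.injective h2))
  · intro h
    exact absurd (mem_univ _) h

/-- the sum of the rows in `S` -/
def row (f : Fin q → Fin 3 → Fin n) (ε : Fin n × Fin 3 ↪ Fin r) (S : Fin q → ZMod 2) :
    Fin r → ZMod 2 := fun i => ∑ v, S v * A3 f ε v i

theorem row_eps (f : Fin q → Fin 3 → Fin n) (ε : Fin n × Fin 3 ↪ Fin r) (S : Fin q → ZMod 2)
    (e : Fin n × Fin 3) : row f ε S (ε e) =
      ((((univ.filter fun v => S v ≠ 0).filter fun v => f v e.2 = e.1).card : ℕ) : ZMod 2) := by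
  rw [card_eq_sum_ones, Nat.cast_sum, filter_filter, sum_filter]
  refine sum_congr rfl fun v _ => ?_
  have h1 : ∀ y : ZMod 2, y ≠ 0 → y = 1 := by decide
  rw [A3_eps]
  by_cases h2 : S v = 0
  · simp [h2]
  · by_cases h3 : f v e.2 = e.1
    · simp [h3, h1 _ h2]
    · simp [h3]

theorem od_eq (f : Fin q → Fin 3 → Fin n) (ε : Fin n × Fin 3 ↪ Fin r) (S : Fin q → ZMod 2) :
    od f (univ.filter fun v => S v ≠ 0) = univ.filter fun e => row f ε S (ε e) ≠ 0 := by
  ext e
  rw [od, mem_filter, mem_filter, row_eps]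
  simp only [mem_univ, true_and]
  exact ZMod.natCast_ne_zero_iff_odd.symm

/-- the parities of all sets of at most `t` equations whose sum of rows is in `K` agree -/
def Good (f : Fin q → Fin 3 → Fin n) (ε : Fin n × Fin 3 ↪ Fin r) (t : ℕ)
    (K : Submodule (ZMod 2) (Fin r → ZMod 2)) (b b' : Fin q → Bool) : Prop :=
  ∀ S : Fin q → ZMod 2, (univ.filter fun v => S v ≠ 0).card ≤ t →
    (fun i => ∑ v, S v * A3 f ε v i) ∈ K → ∑ v, S v * (toZ (b v) + toZ (b' v)) = 0

theorem Good.eq {f : Fin q → Fin 3 → Fin n} {ε : Fin n × Fin 3 ↪ Fin r} {t : ℕ}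
    {K : Submodule (ZMod 2) (Fin r → ZMod 2)} {b b' : Fin q → Bool} (h : Good f ε t K b b')
    (ht : 1 ≤ t) {v : Fin q}
    (hv : ∀ u, (Pi.single (ε (f v u, u)) 1 : Fin r → ZMod 2) ∈ K) : b v = b' v := by
  classical
  have h1 := h (Pi.single v 1) ?_ ?_
  · rw [sum_eq_single v] at h1
    · rw [Pi.single_eq_same, one_mul] at h1
      exact eq_of_toZ h1
    · intro w _ hw
      rw [Pi.single_eq_of_ne hw, zero_mul]
    · intro h2
      exact absurd (mem_univ _) h2
  · have h2 : (univ.filter fun w => (Pi.single v 1 : Fin q → ZMod 2) w ≠ 0) ⊆ {v} := by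
      intro w hw
      rw [mem_filter] at hw
      rw [mem_singleton]
      by_contra hne
      exact hw.2 (Pi.single_eq_of_ne hne _)
    exact (card_le_card h2).trans (by rw [card_singleton]; exact ht)
  · have h3 : (fun i => ∑ w, (Pi.single v 1 : Fin q → ZMod 2) w * A3 f ε w i) =
        ∑ u : Fin 3, (Pi.single (ε (f v u, u)) 1 : Fin r → ZMod 2) := by
      funext i
      rw [sum_eq_single v]
      · rw [Pi.single_eq_same, one_mul, A3, Finset.sum_apply]
        refine sum_congr rfl fun u _ => ?_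
        rw [Pi.single_apply]
        by_cases h4 : ε (f v u, u) = i
        · rw [if_pos h4, if_pos h4.symm]
        · rw [if_neg h4, if_neg (Ne.symm h4)]
      · intro w _ hw
        rw [Pi.single_eq_of_ne hw, zero_mul]
      · intro h2
        exact absurd (mem_univ _) h2
    rw [h3]
    exact Submodule.sum_mem _ fun u _ => hv u

theorem toZ_add3 (f : Fin q → Fin 3 → Fin n) (ε : Fin n × Fin 3 ↪ Fin r) (b : Fin q → Bool)
    (y : Fin r → ZMod 2) (v : Fin q) :
    toZ (add f b (fun e => decide (y (ε e) ≠ 0)) v) = toZ (b v) + ∑ i, A3 f ε v i * y i := by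
  rw [add, toZ_xor, toZ_xor, toZ_xor, toZ_decide, toZ_decide, toZ_decide, sum_A3]

/-- one step of the extension -/
theorem extend (l1 : S_LIN3) (l2 : S_INST3) (f : Fin q → Fin 3 → Fin n)
    (ε : Fin n × Fin 3 ↪ Fin r) {t : ℕ} (K K' : Submodule (ZMod 2) (Fin r → ZMod 2))
    (hKK : ∀ S : Fin q → ZMod 2, (univ.filter fun v => S v ≠ 0).card ≤ t →
      (fun i => ∑ v, S v * A3 f ε v i) ∈ K ⊔ K' →
      2 * (univ.filter fun v => S v ≠ 0).card ≤ t)
    (b b' : Fin q → Bool) (h : Good f ε t K b b') :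
    ∃ (w : Fin r → Bool) (b'' : Fin q → Bool), (∀ c ∈ K, dot c w = 0) ∧
      act w (X (m := m) f ε b') = X f ε b'' ∧ Good f ε t K' b b'' := by
  classical
  obtain ⟨y, hy1, hy2⟩ := l1 (Fin q) (Fin r) (A3 f ε) t K K' hKK
    (fun v => toZ (b v) + toZ (b' v)) h
  refine ⟨fun i => decide (y i ≠ 0), _, fun c hc => ?_, (l2 (Fin r) m n q f ε).1 _ b',
    fun S hS hS2 => ?_⟩
  · refine (sum_congr rfl fun i _ => ?_).trans (hy1 c hc)
    rw [toZ_decide]
  · refine (sum_congr rfl fun v _ => ?_).trans (hy2 S hS hS2)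
    rw [toZ_add3, add_assoc]

theorem key3 (h2 : S_SYM3) (h3 : S_ENG3) (l1 : S_LIN3) (l2 : S_INST3)
    (f : Fin q → Fin 3 → Fin n) (ε : Fin n × Fin 3 ↪ Fin r) {t : ℕ} (ht : 1 ≤ t)
    (D L : Type) (C : Circuit (Clause (Fin r) m) D L)
    (hinv : ∀ (y : Fin r → Bool) (x : Clause (Fin r) m → Bool), C.output (act y x) = C.output x)
    (M : C.Gate → Submodule (ZMod 2) (Fin r → ZMod 2))
    (hM : ∀ g, ∀ y : Fin r → Bool, (∀ c ∈ M g, dot c y = 0) → view id C g (act y) = view id C g id)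
    (hf1 : ∀ S : Finset (Fin q), S.card ≤ t → od f S = ∅ → S = ∅)
    (hf2 : ∀ g h, ∀ S : Fin q → ZMod 2, (univ.filter fun v => S v ≠ 0).card ≤ t →
      (fun i => ∑ v, S v * A3 f ε v i) ∈ M g ⊔ M h →
      2 * (univ.filter fun v => S v ≠ 0).card ≤ t) (b₀ : Fin q → Bool) :
    C.output (X f ε fun _ => false) = C.output (X f ε b₀) := by
  classical
  obtain ⟨i1, -, i3⟩ := l2 (Fin r) m n q f ε
  let R : Submodule (ZMod 2) (Fin r → ZMod 2) → (Clause (Fin r) m → Bool) →
      (Clause (Fin r) m → Bool) → Prop :=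
    fun K x x' => ∃ b b' : Fin q → Bool, x = X f ε b ∧ x' = X f ε b' ∧ Good f ε t K b b'
  have heng := h3 (Fin r) m D L C M R hM ?_ ?_ ?_
  · have h6 : Good f ε t ⊥ (fun _ => false) b₀ := by
      intro S hS hS2
      rw [Submodule.mem_bot] at hS2
      have h8 : od f (univ.filter fun v => S v ≠ 0) = ∅ := by
        rw [od_eq f ε S, filter_eq_empty_iff]
        intro e _
        rw [not_not]
        exact congrFun hS2 (ε e)
      have h7 := hf1 _ hS h8
      rw [filter_eq_empty_iff] at h7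
      refine sum_eq_zero fun v _ => ?_
      rw [not_not.1 (h7 (mem_univ v)), zero_mul]
    obtain ⟨w, b'', -, hp2, hp3⟩ := extend (m := m) l1 l2 f ε ⊥ (M C.out)
      (fun S hS hS2 => hf2 C.out C.out S hS (by
        rw [bot_sup_eq] at hS2
        exact Submodule.mem_sup_left hS2)) _ _ h6
    have h7 : R (M C.out) (X f ε fun _ => false) (X f ε b'') := ⟨_, _, rfl, rfl, hp3⟩
    have h8 : C.output (X f ε fun _ => false) = C.output (X f ε b'') := heng _ _ _ h7
    rw [h8, ← hp2, hinv]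
  · rintro K x x' y ⟨b, b', rfl, rfl, hg⟩
    refine ⟨_, _, i1 y b, i1 y b', fun S hS hS2 => ?_⟩
    refine (sum_congr rfl fun v _ => ?_).trans (hg S hS hS2)
    congr 1
    rw [add, add, toZ_xor (b v), toZ_xor (b' v)]
    have h9 : ∀ a : ZMod 2, a + a = 0 := by decide
    have h10 := h9 (toZ ((y (ε (f v 0, 0)) ^^ y (ε (f v 1, 1))) ^^ y (ε (f v 2, 2))))
    calc _ = toZ (b v) + toZ (b' v) + (toZ ((y (ε (f v 0, 0)) ^^ y (ε (f v 1, 1))) ^^
          y (ε (f v 2, 2))) + toZ ((y (ε (f v 0, 0)) ^^ y (ε (f v 1, 1))) ^^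
          y (ε (f v 2, 2)))) := by ring
      _ = _ := by rw [h10, add_zero]
  · rintro g h x x' ⟨b, b', rfl, rfl, hg⟩
    obtain ⟨w, b'', hp1, hp2, hp3⟩ := extend (m := m) l1 l2 f ε (M g) (M h) (hf2 g h) _ _ hg
    exact ⟨w, hp1, b, b'', rfl, hp2, hp3⟩
  · rintro g x x' c ⟨b, b', rfl, rfl, hg⟩ hc
    exact i3 (M g) c hc b b' fun v hv => hg.eq ht hv

theorem card_sup_le (K K' : Submodule (ZMod 2) (Fin r → ZMod 2)) :
    Nat.card (K ⊔ K' : Submodule (ZMod 2) (Fin r → ZMod 2)) ≤ Nat.card K * Nat.card K' := by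
  classical
  rw [← Nat.card_prod]
  refine Nat.card_le_card_of_surjective
    (fun p : K × K' => (⟨p.1 + p.2, Submodule.add_mem_sup p.1.2 p.2.2⟩ :
      (K ⊔ K' : Submodule (ZMod 2) (Fin r → ZMod 2)))) ?_
  rintro ⟨x, hx⟩
  obtain ⟨y, hy, z, hz, rfl⟩ := Submodule.mem_sup.1 hx
  exact ⟨(⟨y, hy⟩, ⟨z, hz⟩), rfl⟩

theorem injective3 (f : Fin q → Fin 3 → Fin n) {t : ℕ} (ht : 2 ≤ t)
    (hf : ∀ S : Finset (Fin q), S.card ≤ t → od f S = ∅ → S = ∅) : Function.Injective f := by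
  intro v w hvw
  by_contra hne
  have h2 : od f {v, w} = ∅ := by
    rw [od, filter_eq_empty_iff]
    intro e _
    by_cases h3 : f v e.2 = e.1
    · have h4 : (({v, w} : Finset (Fin q)).filter fun v => f v e.2 = e.1) = {v, w} := by
        rw [filter_eq_self]
        intro u hu
        rw [mem_insert, mem_singleton] at hu
        rcases hu with rfl | rfl
        · exact h3
        · rw [← hvw]
          exact h3
      rw [h4, card_pair hne]
      decide
    · have h4 : (({v, w} : Finset (Fin q)).filter fun v => f v e.2 = e.1) = ∅ := by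
        rw [filter_eq_empty_iff]
        intro u hu
        rw [mem_insert, mem_singleton] at hu
        rcases hu with rfl | rfl
        · exact h3
        · rw [← hvw]
          exact h3
      rw [h4, card_empty]
      decide
  have h5 := hf {v, w} (by rw [card_pair hne]; exact ht) h2
  have h6 : v ∈ ({v, w} : Finset (Fin q)) := mem_insert_self _ _
  rw [h5] at h6
  exact notMem_empty _ h6

theorem three3 (f : Fin q → Fin 3 → Fin n) (ε : Fin n × Fin 3 ↪ Fin r) (b : Fin q → Bool)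
    {c : Clause (Fin r) m} (hc : X f ε b c = true) : Function.Injective fun k => (c k).1 := by
  have hc' : IsCl f ε b c := by
    classical
    exact of_decide_eq_true hc
  obtain ⟨v, τ, g, h, -⟩ := hc'
  intro k l hkl
  have h1 : (c k).1 = (c l).1 := hkl
  rw [h k, h l] at h1
  have h2 := congrArg Prod.fst (Sum.inl.inj h1)
  exact congrArg Prod.snd (ε.injective h2)

/-- **Main theorem**, third version. -/
theorem main3 (h2 : S_SYM3) (h3 : S_ENG3) (l1 : S_LIN3) (l2 : S_INST3) (l3 : S_EXP3)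
    (l4 : S_RHS) (l5 : S_GAP3) (ε : ℝ) (hε : 0 < ε) : ∃ K : ℕ, 0 < K ∧ ∀ r m : ℕ, K ≤ r →
      ∀ (D L : Type) (C : Circuit (Clause (Fin r) m) D L), Symmetric C → C.size < 2 ^ (r / K) →
        ∃ x y : Clause (Fin r) m → Bool,
          (∀ c, x c = true ∨ y c = true → Function.Injective fun k => (c k).1) ∧
          Sat x ∧ numClauses x = numClauses y ∧ 0 < numClauses y ∧
          (∀ a, (numTrue y a : ℝ) ≤ (7 / 8 + ε) * numClauses y) ∧
          C.output x = C.output y := by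
  classical
  obtain ⟨k, hk⟩ := exists_nat_one_div_lt hε
  obtain ⟨k', hk'⟩ : ∃ k' : ℕ, k' = k + 1 := ⟨_, rfl⟩
  have hk0 : 1 ≤ k' := by omega
  obtain ⟨c, hc⟩ : ∃ c : ℕ, c = 2 * k' ^ 2 := ⟨_, rfl⟩
  have hc1 : 1 ≤ c := by
    rw [hc]
    exact Nat.succ_le_of_lt (Nat.mul_pos two_pos (Nat.pow_pos hk0))
  obtain ⟨D, hD⟩ : ∃ D : ℕ, D = (10 ^ 6 * c) ^ 2 := ⟨_, rfl⟩
  have hD0 : 0 < D := by
    rw [hD]
    exact Nat.pow_pos (Nat.mul_pos (by norm_num) hc1)
  refine ⟨12 * D, Nat.mul_pos (by norm_num) hD0, fun r m hr D' L C hC hsize => ?_⟩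
  have hn : 1 ≤ r / 3 := by omega
  replace l3 := l3 c (r / 3) hc1 hn
  rw [← hD] at l3
  replace l4 := l4 k' (r / 3) hk0 hn
  rw [← hc] at l4
  have h4 : 4 * (r / (12 * D)) ≤ r / 3 / D := by
    rw [Nat.div_div_eq_div_mul]
    have h6 : r / (12 * D) = r / (3 * D) / 4 := by
      rw [Nat.div_div_eq_div_mul]
      congr 1
      ring
    rw [h6]
    exact Nat.mul_div_le _ _
  have hs1 : 1 ≤ r / (12 * D) := (Nat.one_le_div_iff (Nat.mul_pos (by norm_num) hD0)).2 hr
  have hrn : 3 * (r / 3) ≤ r := by omega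
  obtain ⟨hinv, hM'⟩ := h2 (Fin r) m D' L C hC
  choose M hM1 hM2 using hM'
  letI := C.finite
  let F : (Fin r → ZMod 2) → Finset (Fin (r / 3) × Fin 3) := fun c =>
    univ.filter fun e => c (eps hrn e) ≠ 0
  let W : Finset (Finset (Fin (r / 3) × Fin 3)) :=
    (univ : Finset (C.Gate × C.Gate)).biUnion fun p =>
      (univ.filter fun c : Fin r → ZMod 2 => c ∈ M p.1 ⊔ M p.2).image F
  have hW : W.card ≤ 2 ^ (r / 3 / D) := by
    have h6 : ∀ p : C.Gate × C.Gate,
        ((univ.filter fun c : Fin r → ZMod 2 => c ∈ M p.1 ⊔ M p.2).image F).card ≤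
          C.size * C.size := by
      intro p
      refine card_image_le.trans ?_
      have h7 : (univ.filter fun c : Fin r → ZMod 2 => c ∈ M p.1 ⊔ M p.2).card =
          Nat.card (M p.1 ⊔ M p.2 : Submodule (ZMod 2) (Fin r → ZMod 2)) := by
        rw [Nat.card_eq_fintype_card, ← Fintype.card_subtype]
      rw [h7]
      exact (card_sup_le _ _).trans (Nat.mul_le_mul (hM1 _) (hM1 _))
    have h8 : W.card ≤ C.size * C.size * (C.size * C.size) := by
      refine (card_biUnion_le_card_mul _ _ _ fun p _ => h6 p).trans (le_of_eq ?_)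
      rw [card_univ, Fintype.card_prod]
      rfl
    have h9 : C.size ≤ 2 ^ (r / (12 * D)) := hsize.le
    refine h8.trans ((Nat.mul_le_mul (Nat.mul_le_mul h9 h9) (Nat.mul_le_mul h9 h9)).trans ?_)
    rw [← pow_add, ← pow_add]
    exact Nat.pow_le_pow_right (by norm_num) (by omega)
  obtain ⟨f, hf1, hf2⟩ := l3 W hW
  obtain ⟨b₀, hb₀⟩ := l4 f
  have hinj : Function.Injective f := injective3 f (t := r / 3 / D) (by omega) hf1
  have hx := (l5 (Fin r) m (r / 3) (c * (r / 3)) (c * (r / 3)) f (eps hrn) (fun _ => false) hinj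
    (fun z => (card_filter_le _ _).trans (by rw [card_univ, Fintype.card_fin]))).1
  have hfl : ∀ z : Fin (r / 3) × Fin 3 → Bool,
      (univ.filter fun v => add f b₀ z v = false).card ≤
        ⌊(1 / 2 + 1 / (k' : ℝ)) * ((c * (r / 3) : ℕ) : ℝ)⌋₊ := by
    intro z
    refine Nat.le_floor ?_
    exact hb₀ z
  obtain ⟨hy1, hy2⟩ := l5 (Fin r) m (r / 3) (c * (r / 3)) _ f (eps hrn) b₀ hinj hfl
  obtain ⟨-, i2, -⟩ := l2 (Fin r) m (r / 3) (c * (r / 3)) f (eps hrn)
  refine ⟨X f (eps hrn) fun _ => false, X f (eps hrn) b₀, ?_, i2, by rw [hx, hy1], ?_, ?_, ?_⟩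
  · rintro c (hc | hc)
    · exact three3 f _ _ hc
    · exact three3 f _ _ hc
  · rw [hy1]
    exact Nat.mul_pos (by norm_num) (Nat.mul_pos hc1 hn)
  · intro a
    rw [hy1]
    have hQ : (0 : ℝ) ≤ ((c * (r / 3) : ℕ) : ℝ) := Nat.cast_nonneg _
    have h7 : (numTrue (X (m := m) f (eps hrn) b₀) a : ℝ) ≤ 24 * ((c * (r / 3) : ℕ) : ℝ) +
        8 * ((1 / 2 + 1 / (k' : ℝ)) * ((c * (r / 3) : ℕ) : ℝ)) := by
      refine (Nat.cast_le.2 (hy2 a)).trans ?_
      have h8 : (⌊(1 / 2 + 1 / (k' : ℝ)) * ((c * (r / 3) : ℕ) : ℝ)⌋₊ : ℝ) ≤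
          (1 / 2 + 1 / (k' : ℝ)) * ((c * (r / 3) : ℕ) : ℝ) := Nat.floor_le (by positivity)
      rw [Nat.cast_add, Nat.cast_mul, Nat.cast_mul]
      push_cast at h8 ⊢
      linarith
    refine h7.trans ?_
    have h9 : 1 / (k' : ℝ) ≤ ε := by
      rw [hk']
      push_cast
      exact hk.le
    rw [Nat.cast_mul 32]
    generalize ((c * (r / 3) : ℕ) : ℝ) = Q at *
    have h10 : (0 : ℝ) ≤ Q := hQ
    have h11 : 1 / (k' : ℝ) * Q ≤ ε * Q := mul_le_mul_of_nonneg_right h9 h10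
    have h12 : 0 ≤ ε * Q := mul_nonneg hε.le h10
    push_cast
    nlinarith
  · refine key3 h2 h3 l1 l2 f (eps hrn) (t := r / 3 / D) (by omega) D' L C hinv M hM2 hf1 ?_ b₀
    intro g h S hS hS2
    by_contra hcon
    refine hf2 _ hS (not_le.1 hcon) ?_
    rw [od_eq f (eps hrn) S]
    refine mem_biUnion.2 ⟨(g, h), mem_univ _, mem_image.2 ⟨row f (eps hrn) S, ?_, rfl⟩⟩
    exact mem_filter.2 ⟨mem_univ _, hS2⟩

end

end Pool.Agent.J6H49.SY.Z2
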