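import Pool.Agent.J6H49.SY.Fin2

/-!
# Circuits for 3-SAT that are symmetric under exchanging the two variables of `r` pairs

Definitions of the statement, and the modules of the proof.
-/

set_option autoImplicit false

namespace Pool.Agent.J6H49.SY.Z2

open Pool.Agent.Y600.Circ (Circuit view)
open Pool.Agent.J6H49.SY (add toZ par)

/-- The variables: a pair of variables for each element of `ι`, and `m` further variables. -/
abbrev Vr (ι : Type) (m : ℕ) : Type := (ι × Bool) ⊕ Fin m

/-- A clause consists of three literals; `(w, s)` is the literal that is true if the variable `w`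
has the value `s`. -/
abbrev Clause (ι : Type) (m : ℕ) : Type := Fin 3 → Vr ι m × Bool

variable {ι : Type} {m : ℕ}

/-- The formula with the clauses `c` for which `x c = true` is satisfiable. -/
def Sat (x : Clause ι m → Bool) : Prop :=
  ∃ a : Vr ι m → Bool, ∀ c, x c = true → ∃ k, a (c k).1 = (c k).2

/-- Exchange the two variables of the pairs `i` with `y i = true`. -/
def mv (y : ι → Bool) : Vr ι m → Vr ι m := Sum.map (fun p => (p.1, p.2 ^^ y p.1)) id

/-- The action on the clauses. -/
def mc (y : ι → Bool) (c : Clause ι m) : Clause ι m := fun k => (mv y (c k).1, (c k).2)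

/-- The permutation `π` of the gates is an automorphism of the circuit that extends the permutation
`mc y` of the clauses (i.e. of the input bits). -/
structure IsAut {D L : Type} (C : Circuit (Clause ι m) D L) (y : ι → Bool)
    (π : Equiv.Perm C.Gate) : Prop where
  read : ∀ g, C.read (π g) = (C.read g).map (mc y)
  wires : ∀ g, C.wires (π g) = (C.wires g).map fun e => (e.1, π e.2)
  fn : ∀ g, C.fn (π g) = C.fn g
  out : π C.out = C.out

/-- A circuit is symmetric if for every set of pairs the exchange of the two variables in these pairs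
extends to an automorphism of the circuit. -/
def Symmetric {D L : Type} (C : Circuit (Clause ι m) D L) : Prop :=
  ∀ y : ι → Bool, ∃ π : Equiv.Perm C.Gate, IsAut C y π

/-- The circuit decides whether formulas are satisfiable. -/
def Decides {D L : Type} (C : Circuit (Clause ι m) D L) (acc : Set D) : Prop :=
  ∀ x : Clause ι m → Bool, C.output x ∈ acc ↔ Sat x

open Classical in
/-- The number of clauses of a formula. -/
noncomputable def numClauses [Fintype ι] (x : Clause ι m → Bool) : ℕ :=
  (Finset.univ.filter fun c => x c = true).card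

open Classical in
/-- The number of clauses of a formula which the assignment `a` satisfies. -/
noncomputable def numTrue [Fintype ι] (x : Clause ι m → Bool) (a : Vr ι m → Bool) : ℕ :=
  (Finset.univ.filter fun c => x c = true ∧ ∃ k, a (c k).1 = (c k).2).card

/-! ### Notions for the proof -/

/-- The action on the formulas. -/
def act (y : ι → Bool) (x : Clause ι m → Bool) : Clause ι m → Bool := fun c => x (mc y c)

/-- The clauses of the formula with the right sides `b`: for every equation `v` and all `τ` the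
clauses of `∑ t, z_(f v t, t, τ t) = b v + ∑ t, τ t`. -/
def IsCl {n q : ℕ} (f : Fin q → Fin 3 → Fin n) (ε : Fin n × Fin 3 ↪ ι)
    (b : Fin q → Bool) (c : Clause ι m) : Prop :=
  ∃ (v : Fin q) (τ g : Fin 3 → Bool),
    (∀ t, c t = (Sum.inl (ε (f v t, t), τ t), g t)) ∧ par τ g = b v

open Classical in
/-- The formula with the right sides `b`. -/
noncomputable def X {n q : ℕ} (f : Fin q → Fin 3 → Fin n) (ε : Fin n × Fin 3 ↪ ι)
    (b : Fin q → Bool) : Clause ι m → Bool := fun c => decide (IsCl f ε b c)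

/-- The pairing of vectors with exchanges. -/
def dot [Fintype ι] (c : ι → ZMod 2) (y : ι → Bool) : ZMod 2 := ∑ i, c i * toZ (y i)

/-- The variables in an odd number of equations of `S`. -/
def od {n q : ℕ} (f : Fin q → Fin 3 → Fin n) (S : Finset (Fin q)) : Finset (Fin n × Fin 3) :=
  Finset.univ.filter fun e : Fin n × Fin 3 => Odd (S.filter fun v => f v e.2 = e.1).card

/-! ### The modules -/

/-- SYM. Proof: if `IsAut C y π` then `C.eval x (π g) = C.eval (act y x) g` (induction on the rank;
this and the rest up to the duality is as in `Pool/Agent/J6H92/SY/Sym.lean`), so the `y` with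
`view id C g (act y) = view id C g id` correspond to a subspace `H` of `ι → ZMod 2` of index at most
`C.size`. Let `M g` be the orthogonal complement of `H` (for the pairing `∑ i, c i * y i`): its
cardinality is the index of `H`, and the orthogonal complement of `M g` is `H`. -/
def S_SYM3 : Prop := ∀ (ι : Type) [Fintype ι] [DecidableEq ι] (m : ℕ) (D L : Type)
    (C : Circuit (Clause ι m) D L), Symmetric C →
    (∀ (y : ι → Bool) (x : Clause ι m → Bool), C.output (act y x) = C.output x) ∧
    ∀ g : C.Gate, ∃ M : Submodule (ZMod 2) (ι → ZMod 2), Nat.card M ≤ C.size ∧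
      ∀ y : ι → Bool, (∀ c ∈ M, dot c y = 0) → view id C g (act y) = view id C g id

/-- ENG. As `S_ENG`, see `Pool/Agent/J6H94/SY/Eng.lean`; note
`act w (act y x) = act (fun i => w i ^^ y i) x`. -/
def S_ENG3 : Prop := ∀ (ι : Type) [Fintype ι] [DecidableEq ι] (m : ℕ) (D L : Type)
    (C : Circuit (Clause ι m) D L) (M : C.Gate → Submodule (ZMod 2) (ι → ZMod 2))
    (R : Submodule (ZMod 2) (ι → ZMod 2) → (Clause ι m → Bool) → (Clause ι m → Bool) → Prop),
    (∀ g, ∀ y : ι → Bool, (∀ c ∈ M g, dot c y = 0) → view id C g (act y) = view id C g id) →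
    (∀ K x x' y, R K x x' → R K (act y x) (act y x')) →
    (∀ g h x x', R (M g) x x' →
      ∃ w : ι → Bool, (∀ c ∈ M g, dot c w = 0) ∧ R (M h) x (act w x')) →
    (∀ g x x' (c : Clause ι m), R (M g) x x' →
      (∀ y : ι → Bool, (∀ c' ∈ M g, dot c' y = 0) → mc y c = c) → x c = x' c) →
    ∀ g x x', R (M g) x x' → C.eval x g = C.eval x' g

/-- INST. The formulas; compare `Pool/Agent/J6H78/SY/Inst2.lean`. (3): a clause of the equation `v`
is fixed by all `y` orthogonal to `M` only if these `y` are zero at the three places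
`ε (f v t, t)`, so the unit vectors of these places are in `M`. -/
def S_INST3 : Prop := ∀ (ι : Type) [Fintype ι] [DecidableEq ι] (m n q : ℕ)
    (f : Fin q → Fin 3 → Fin n) (ε : Fin n × Fin 3 ↪ ι),
    (∀ (y : ι → Bool) (b : Fin q → Bool),
      act y (X (m := m) f ε b) = X f ε (add f b fun e => y (ε e))) ∧
    Sat (X (m := m) f ε fun _ => false) ∧
    ∀ (M : Submodule (ZMod 2) (ι → ZMod 2)) (c : Clause ι m),
      (∀ y : ι → Bool, (∀ c' ∈ M, dot c' y = 0) → mc y c = c) →
      ∀ b b' : Fin q → Bool,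
        (∀ v, (∀ t, (Pi.single (ε (f v t, t)) 1 : ι → ZMod 2) ∈ M) → b v = b' v) →
        X f ε b c = X f ε b' c

/-- GAP. As `S_GAP`, see `Pool/Agent/J6H33/SY/Gap.lean`. -/
def S_GAP3 : Prop := ∀ (ι : Type) [Fintype ι] [DecidableEq ι] (m n q h : ℕ)
    (f : Fin q → Fin 3 → Fin n) (ε : Fin n × Fin 3 ↪ ι) (b : Fin q → Bool),
    Function.Injective f →
    (∀ z : Fin n × Fin 3 → Bool,
      (Finset.univ.filter fun v => add f b z v = false).card ≤ h) →
    numClauses (X (m := m) f ε b) = 32 * q ∧
      ∀ a, numTrue (X (m := m) f ε b) a ≤ 24 * q + 8 * h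

/-- EXP. For `C ≥ 1`, `n ≥ 1`, `t = n / (10 ^ 6 C) ^ 2` and every set `W` of at most `2 ^ t` sets of
variables there are `C n` equations such that no nonempty set `S` of at most `t` equations has
`od f S = ∅`, and no set `S` of more than `t / 2` and at most `t` equations has `od f S ∈ W`.
Proof (compare `Pool/Agent/J6H3/SY/Exp.lean`): fix `w` and `k`, `1 ≤ k ≤ t`. If `|S| = k` and
`od f S = w` then `w ⊆ N(S)` and `2 |N(S) \ w| + |w| ≤ 3 k`, so there is a set `W'` of exactly
`u = ⌊3 k / 2⌋` variables with `N(S) ⊆ w ∪ W'`, and `|w ∪ W'| ≤ 3 k + u ≤ 5 k`. So the proportion of the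
`f` for which some `S` with `|S| = k` has `od f S = w` is at most
`choose (C n) k * choose (3 n) u * (5 k / n) ^ (3 k)
  ≤ (3 C n / k) ^ k * (9 n / u) ^ u * (5 k / n) ^ (3 k) ≤ (10125 C) ^ k * (k / n) ^ (2 k - u)`,
and `2 k - u ≥ k / 2`, `k / n ≤ (10 ^ 6 C) ^ (-2)`, so it is at most `(10125 / 10 ^ 6) ^ k ≤ 90 ^ (-k)`.
For `t < 2 k` we have `|W| ≤ 2 ^ t ≤ 4 ^ k`. So the sum of all proportions is at most
`∑ 90 ^ (-k) + ∑ (4 / 90) ^ k < 1`. -/
def S_EXP3 : Prop := ∀ C n : ℕ, 1 ≤ C → 1 ≤ n → ∀ W : Finset (Finset (Fin n × Fin 3)),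
    W.card ≤ 2 ^ (n / (10 ^ 6 * C) ^ 2) → ∃ f : Fin (C * n) → Fin 3 → Fin n,
      (∀ S : Finset (Fin (C * n)), S.card ≤ n / (10 ^ 6 * C) ^ 2 → od f S = ∅ → S = ∅) ∧
      ∀ S : Finset (Fin (C * n)), S.card ≤ n / (10 ^ 6 * C) ^ 2 →
        n / (10 ^ 6 * C) ^ 2 < 2 * S.card → od f S ∉ W

/-- LIN. Linear algebra modulo two (compare `Pool/Agent/J6H24/SY/Lin.lean`). Proof: let `Z` be the
set of the `S` with at most `t` nonzero entries and `∑ v, S v • A v ∈ K ⊔ K'`. By the hypothesis they
have at most `t / 2` nonzero entries, so `Z` is a subspace. The functional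
`(∑ v, S v • A v) + c ↦ ∑ v, S v * β v`, `S ∈ Z`, `c ∈ K`, is well defined on a subspace of `E → ZMod 2`
since `∑ v, S v • A v = c ∈ K` implies `∑ v, S v * β v = 0` (i.e. extend the functional on the image of
`Z × K → E → ZMod 2`, `(S, c) ↦ (∑ v, S v • A v) + c`, whose kernel is in the kernel of
`(S, c) ↦ ∑ v, S v * β v`). Extend it to `E → ZMod 2` and let `y e` be its value at
`Pi.single e 1`. -/
def S_LIN3 : Prop := ∀ (V E : Type) [Fintype V] [DecidableEq V] [Fintype E] [DecidableEq E]
    (A : V → E → ZMod 2) (t : ℕ) (K K' : Submodule (ZMod 2) (E → ZMod 2)),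
    (∀ S : V → ZMod 2, (Finset.univ.filter fun v => S v ≠ 0).card ≤ t →
      (fun e => ∑ v, S v * A v e) ∈ K ⊔ K' →
      2 * (Finset.univ.filter fun v => S v ≠ 0).card ≤ t) →
    ∀ β : V → ZMod 2,
      (∀ S : V → ZMod 2, (Finset.univ.filter fun v => S v ≠ 0).card ≤ t →
        (fun e => ∑ v, S v * A v e) ∈ K → ∑ v, S v * β v = 0) →
      ∃ y : E → ZMod 2, (∀ c ∈ K, ∑ e, c e * y e = 0) ∧
        ∀ S : V → ZMod 2, (Finset.univ.filter fun v => S v ≠ 0).card ≤ t →
          (fun e => ∑ v, S v * A v e) ∈ K' → ∑ v, S v * (β v + ∑ e, A v e * y e) = 0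

/-- UP. Symmetrization, as `S_UP`, see `Pool/Agent/J6H78/SY/Up.lean`. -/
def S_UP3 : Prop := ∀ (r m : ℕ) (L : Type) (C : Circuit (Clause (Fin r) m) Bool L),
    Decides C {true} → ∃ C' : Circuit (Clause (Fin r) m) Bool (Option L),
      Symmetric C' ∧ Decides C' {true} ∧ C'.size ≤ 2 ^ r * C.size + 1

end Pool.Agent.J6H49.SY.Z2
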